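import Mathlib
import Pool.Agent.H16.PI.Ex2

set_option autoImplicit false

namespace Pool.Agent.Results.MP_d2f903_nt.PolynomialImages

open Polynomial Filter

/-- The naive height of an integer polynomial: the maximum absolute value of its coefficients. -/
noncomputable def height (P : ℤ[X]) : ℕ := P.support.sup (fun i => (P.coeff i).natAbs)

/-- `P` is the minimal polynomial over `ℤ` of the real number `α`: irreducible, primitive,
with positive leading coefficient, vanishing at `α`. -/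
def IsMinPolyZ (P : ℤ[X]) (α : ℝ) : Prop :=
  Irreducible P ∧ P.IsPrimitive ∧ 0 < P.leadingCoeff ∧ aeval α P = 0

/-- Koksma's exponent `w_n^*(ξ)`, in the extended reals: the supremum of the real `w` for which
infinitely many real algebraic numbers `α` of degree at most `n` satisfy
`0 < |ξ - α| ≤ H(α)^(-w-1)`. -/
noncomputable def wKoksma (ξ : ℝ) (n : ℕ) : EReal :=
  sSup {W : EReal | ∃ w : ℝ, W = (w : EReal) ∧
    {α : ℝ | ∃ P : ℤ[X], IsMinPolyZ P α ∧ P.natDegree ≤ n ∧ 0 < |ξ - α| ∧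
      |ξ - α| ≤ (height P : ℝ) ^ (-w - 1)}.Infinite}

/-- `w^*(ξ) = limsup w_n^*(ξ) / n`; this is the *-type `t^*(ξ)` of an `S^*`-number. -/
noncomputable def wStar (ξ : ℝ) : EReal :=
  limsup (fun n : ℕ => wKoksma ξ n / (n : EReal)) atTop

/-- `S^*`-numbers. -/
def IsSStar (ξ : ℝ) : Prop := 0 < wStar ξ ∧ wStar ξ < ⊤

/-- Let `R` be a non-constant polynomial with rational coefficients, of degree `d`.
(1) A real number `ξ` is an `S^*`-number if and only if `R(ξ)` is one, and then the `*`-types of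
`ξ` and `R(ξ)` differ at most by the factor `d` in either direction.
(2) Both bounds are attained for every `R`, with every large value of the type: for
`τ ≥ 40 d^2`, `τ ≥ lcm(1, …, d) + d` there are `S^*`-numbers `ξ` and `η` with `t^*(ξ) = τ`,
`t^*(R(ξ)) = τ / d` and `t^*(η) = τ / d`, `t^*(R(η)) = τ`.
(3) One `ξ` works for all polynomials of degree at most `M` at once, and such `ξ` are dense: if
every `m ≤ M` divides `B` and `τ ≥ 40 M^2`, `τ ≥ B + M` then every open interval contains an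
`S^*`-number `ξ` of type `τ` such that for every rational polynomial `R` with `1 ≤ deg R ≤ M`
both `t^*(R(ξ)) = τ / deg R` and `t^*(η) = τ / deg R` for every real solution `η` of
`R(η) = ξ`. -/
theorem result :
    (∀ R : ℚ[X], 1 ≤ R.natDegree →
      (∀ ξ : ℝ, (IsSStar ξ ↔ IsSStar (aeval ξ R)) ∧
        (IsSStar ξ → wStar ξ ≤ R.natDegree * wStar (aeval ξ R) ∧
          wStar (aeval ξ R) ≤ R.natDegree * wStar ξ)) ∧
      (∀ τ : ℝ, 40 * (R.natDegree : ℝ) ^ 2 ≤ τ →
        (((Finset.Icc 1 R.natDegree).lcm id : ℕ) : ℝ) + R.natDegree ≤ τ →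
        (∃ ξ : ℝ, IsSStar ξ ∧ wStar ξ = (τ : EReal) ∧
          wStar (aeval ξ R) = ((τ / R.natDegree : ℝ) : EReal)) ∧
        (∃ η : ℝ, IsSStar η ∧ wStar η = ((τ / R.natDegree : ℝ) : EReal) ∧
          wStar (aeval η R) = (τ : EReal)))) ∧
    (∀ M B : ℕ, 1 ≤ M → 0 < B → (∀ m : ℕ, 1 ≤ m → m ≤ M → m ∣ B) →
      ∀ τ : ℝ, 40 * (M : ℝ) ^ 2 ≤ τ → (B : ℝ) + M ≤ τ → ∀ a b : ℝ, a < b →
        ∃ ξ : ℝ, a < ξ ∧ ξ < b ∧ IsSStar ξ ∧ wStar ξ = (τ : EReal) ∧
          ∀ R : ℚ[X], 1 ≤ R.natDegree → R.natDegree ≤ M →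
            wStar (aeval ξ R) = ((τ / R.natDegree : ℝ) : EReal) ∧
            ∀ η : ℝ, aeval η R = ξ → IsSStar η ∧
              wStar η = ((τ / R.natDegree : ℝ) : EReal)) := by
  refine ⟨fun R hR => ⟨fun ξ => ⟨⟨fun h => ?_, fun h => ?_⟩, fun h => ?_⟩, fun τ hτ1 hτ2 => ?_⟩,
    fun M B hM hB hdiv τ hτ1 hτ2 a b hab => ?_⟩
  · exact (Pool.Agent.H16.PI.general Pool.Agent.H16.PI.hF Pool.Agent.H16.PI.hH
      Pool.Agent.H16.PI.hJ ξ h R hR).1
  · exact Pool.Agent.H16.PI.converse ξ R hR h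
  · exact (Pool.Agent.H16.PI.general Pool.Agent.H16.PI.hF Pool.Agent.H16.PI.hH
      Pool.Agent.H16.PI.hJ ξ h R hR).2
  · exact Pool.Agent.H16.PI.attained R hR τ hτ1 hτ2
  · exact Pool.Agent.H16.PI.examplesQ2 M B hM hB hdiv τ hτ1 hτ2 a b hab

end Pool.Agent.Results.MP_d2f903_nt.PolynomialImages
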